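import Pool.Agent.Helper60.TG.Goals

/-!
# Project TG, packet DALG
-/

namespace Pool.Agent.Helper17.TG.DALG

open Polynomial

/-- The derivative of a value of a polynomial with coefficients in a subfield. -/
lemma core {K L : Type} [Field K] [Field L] [Algebra K L] (D : Derivation K L L)
    (F : IntermediateField K L) (z : L) (p : F[X]) :
    D (aeval z p) = p.sum (fun i a => z ^ i * D (a : L)) + aeval z (derivative p) * D z := by
  induction p using Polynomial.induction_on' with
  | add p q hp hq =>
    rw [map_add, map_add, hp, hq, derivative_add, map_add, add_mul,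
      Polynomial.sum_add_index p q (fun i a => z ^ i * D (a : L))]
    · ring
    · intro i
      simp
    · intro i a b
      rw [IntermediateField.coe_add, map_add, mul_add]
  | monomial i a =>
    rw [Polynomial.sum_monomial_index (f := fun i a => z ^ i * D (a : L)) a (by simp),
      aeval_monomial, derivative_monomial, aeval_monomial, Derivation.leibniz,
      Derivation.leibniz_pow]
    simp only [smul_eq_mul, nsmul_eq_mul, map_mul, map_natCast]
    change (a : L) * ((i : L) * (z ^ (i - 1) * D z)) + z ^ i * D (a : L) = _
    change _ = z ^ i * D (a : L) + (a : L) * (i : L) * z ^ (i - 1) * D z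
    ring

/-- The equation for the derivative of an algebraic element. -/
lemma eqn {K L : Type} [Field K] [CharZero K] [Field L] [Algebra K L] (D : Derivation K L L)
    (F : IntermediateField K L) (z : L) (hz : IsAlgebraic F z) :
    ∃ p : F[X], aeval z (derivative p) ≠ 0 ∧
      aeval z (derivative p) * D z = - p.sum (fun i a => z ^ i * D (a : L)) := by
  refine ⟨minpoly F z, ?_, ?_⟩
  · have : CharZero F := charZero_of_injective_algebraMap (algebraMap K F).injective
    have hs : (minpoly F z).Separable := (minpoly.irreducible hz.isIntegral).separable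
    exact hs.aeval_derivative_ne_zero (minpoly.aeval F z)
  · have h := core D F z (minpoly F z)
    rw [minpoly.aeval, map_zero] at h
    linear_combination - h

/-- The derivative of an algebraic element is in every field containing it, the ground field and
its derivatives. -/
lemma memM {K L : Type} [Field K] [CharZero K] [Field L] [Algebra K L] (D : Derivation K L L)
    (F M : IntermediateField K L) (z : L) (hz : IsAlgebraic F z) (hzM : z ∈ M) (hFM : F ≤ M)
    (hD : ∀ a ∈ F, D a ∈ M) : D z ∈ M := by
  obtain ⟨p, hp, he⟩ := eqn D F z hz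
  have h1 : aeval z (derivative p) ∈ M := by
    rw [aeval_eq_sum_range]
    refine sum_mem fun i _ => ?_
    rw [Algebra.smul_def]
    exact mul_mem (hFM (SetLike.coe_mem _)) (pow_mem hzM i)
  have h2 : p.sum (fun i a => z ^ i * D (a : L)) ∈ M := by
    rw [Polynomial.sum_def]
    exact sum_mem fun i _ => mul_mem (pow_mem hzM i) (hD _ (SetLike.coe_mem _))
  have h3 : D z = (aeval z (derivative p))⁻¹ * (- p.sum (fun i a => z ^ i * D (a : L))) := by
    rw [← he]
    field_simp
  rw [h3]
  exact mul_mem (inv_mem h1) (neg_mem h2)

/-- Derivatives of the elements of a field generated by a set. -/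
lemma memA {K L : Type} [Field K] [Field L] [Algebra K L] (D : Derivation K L L)
    (S : Set L) (M : IntermediateField K L) (hM : IntermediateField.adjoin K S ≤ M)
    (hD : ∀ s ∈ S, D s ∈ M) : ∀ a ∈ IntermediateField.adjoin K S, D a ∈ M := by
  intro a ha
  induction ha using IntermediateField.adjoin_induction with
  | mem x hx => exact hD x hx
  | algebraMap x =>
    rw [Derivation.map_algebraMap]
    exact zero_mem M
  | add x y hx hy h1 h2 =>
    rw [map_add]
    exact add_mem h1 h2
  | inv x hx h1 =>
    rw [Derivation.leibniz_inv]
    rw [smul_eq_mul]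
    exact mul_mem (neg_mem (pow_mem (inv_mem (hM hx)) 2)) h1
  | mul x y hx hy h1 h2 =>
    rw [Derivation.leibniz, smul_eq_mul, smul_eq_mul]
    exact add_mem (mul_mem (hM hx) h2) (mul_mem (hM hy) h1)

theorem t : Pool.Agent.Helper60.TG.DALG := by
  intro K L _ _ _ _ D
  refine ⟨?_, ?_, ?_, ?_⟩
  · intro F hF z hz
    have hFM : F ≤ IntermediateField.adjoin K ((F : Set L) ∪ {z}) := fun a ha =>
      IntermediateField.subset_adjoin K _ (Or.inl ha)
    exact memM D F _ z hz (IntermediateField.subset_adjoin K _ (Or.inr rfl)) hFM
      (fun a ha => hFM (hF a ha))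
  · intro F hF z hz
    obtain ⟨p, hp, he⟩ := eqn D F z hz
    have h2 : p.sum (fun i a => z ^ i * D (a : L)) = 0 := by
      rw [Polynomial.sum_def]
      refine Finset.sum_eq_zero fun i _ => ?_
      rw [hF _ (SetLike.coe_mem _), mul_zero]
    rw [h2, neg_zero] at he
    exact (mul_eq_zero.1 he).resolve_left hp
  · intro S hS
    exact memA D S _ le_rfl hS
  · intro S hS z hz
    let G := IntermediateField.adjoin K S
    let M : IntermediateField K L := (algebraicClosure G L).restrictScalars K
    have hM : ∀ x : L, x ∈ M ↔ IsAlgebraic G x := fun x => mem_algebraicClosure_iff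
    have hGM : G ≤ M := fun x hx => (hM x).2 (isAlgebraic_algebraMap (⟨x, hx⟩ : G))
    have h1 : ∀ a ∈ G, D a ∈ M := memA D S M hGM (fun s hs => (hM _).2 (hS s hs))
    exact (hM _).1 (memM D G M z hz ((hM z).2 hz) hGM h1)

end Pool.Agent.Helper17.TG.DALG
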