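import Pool.Agent.Helper92.TG.GoalsX

/-!
# Project TG, packet DEC
-/

namespace Pool.Agent.Helper17.TG.DEC

open Polynomial

/-- An automorphism fixing `x` fixes the field `K(x)`. -/
lemma fixL {K F : Type} [Field K] [Field F] [Algebra K F] {x : F} {σ : F →ₐ[K] F}
    (hσ : σ x = x) : ∀ y ∈ IntermediateField.adjoin K ({x} : Set F), σ y = y := by
  intro y hy
  induction hy using IntermediateField.adjoin_induction with
  | mem a ha =>
    rw [Set.mem_singleton_iff] at ha
    rw [ha, hσ]
  | algebraMap a => exact σ.commutes a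
  | add a b _ _ h1 h2 => rw [map_add, h1, h2]
  | inv a _ h1 => rw [map_inv₀, h1]
  | mul a b _ _ h1 h2 => rw [map_mul, h1, h2]

/-- Elements of `K(x, ψ)` are `u + v ψ`. -/
lemma decomp {K F : Type} [Field K] [CharZero K] [Field F] [Algebra K F] {x ψ : F} {β : K[X]}
    {σ : F →ₐ[K] F} (hψ : ψ ≠ 0) (h2 : ψ ^ 2 = aeval x β) (hx : σ x = x) (hσ : σ ψ = -ψ) :
    ∀ z ∈ IntermediateField.adjoin K ({x, ψ} : Set F),
      ∃ u ∈ IntermediateField.adjoin K ({x} : Set F), ∃ v ∈ IntermediateField.adjoin K ({x} : Set F),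
        z = u + v * ψ := by
  have : CharZero F := charZero_of_injective_algebraMap (algebraMap K F).injective
  set L := IntermediateField.adjoin K ({x} : Set F) with hL
  have hxL : x ∈ L := IntermediateField.subset_adjoin K _ rfl
  have hβ : ψ ^ 2 ∈ L := by
    rw [h2, aeval_eq_sum_range]
    exact sum_mem fun i _ => L.smul_mem (pow_mem hxL i)
  intro z hz
  induction hz using IntermediateField.adjoin_induction with
  | mem a ha =>
    rcases ha with ha | ha
    · exact ⟨x, hxL, 0, L.zero_mem, by rw [ha]; ring⟩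
    · rw [Set.mem_singleton_iff] at ha
      exact ⟨0, L.zero_mem, 1, L.one_mem, by rw [ha]; ring⟩
  | algebraMap a => exact ⟨algebraMap K F a, L.algebraMap_mem a, 0, L.zero_mem, by ring⟩
  | add a b _ _ h1 h2 =>
    obtain ⟨u, hu, v, hv, rfl⟩ := h1
    obtain ⟨u', hu', v', hv', rfl⟩ := h2
    exact ⟨u + u', L.add_mem hu hu', v + v', L.add_mem hv hv', by ring⟩
  | inv a _ h1 =>
    obtain ⟨u, hu, v, hv, rfl⟩ := h1
    by_cases h0 : u + v * ψ = 0
    · exact ⟨0, L.zero_mem, 0, L.zero_mem, by rw [h0]; simp⟩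
    by_cases hN : u - v * ψ = 0
    · exfalso
      have h3 : u = v * ψ := sub_eq_zero.1 hN
      have hv0 : v ≠ 0 := by
        intro hv0
        apply h0
        rw [h3, hv0]
        ring
      have h4 : ψ = u / v := by
        rw [h3]
        field_simp
      have h5 : ψ ∈ L := by
        rw [h4]
        exact L.div_mem hu hv
      have h6 := fixL hx ψ h5
      rw [hσ] at h6
      apply hψ
      have h7 : (2 : F) * ψ = 0 := by linear_combination - h6
      exact (mul_eq_zero.1 h7).resolve_left two_ne_zero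
    · have hM : u ^ 2 - v ^ 2 * ψ ^ 2 ∈ L :=
        L.sub_mem (pow_mem hu 2) (L.mul_mem (pow_mem hv 2) hβ)
      have hM0 : u ^ 2 - v ^ 2 * ψ ^ 2 ≠ 0 := by
        have : u ^ 2 - v ^ 2 * ψ ^ 2 = (u + v * ψ) * (u - v * ψ) := by ring
        rw [this]
        exact mul_ne_zero h0 hN
      refine ⟨u / (u ^ 2 - v ^ 2 * ψ ^ 2), L.div_mem hu hM, -v / (u ^ 2 - v ^ 2 * ψ ^ 2),
        L.div_mem (L.neg_mem hv) hM, ?_⟩
      refine inv_eq_of_mul_eq_one_right ?_
      have e : (u + v * ψ) * (u / (u ^ 2 - v ^ 2 * ψ ^ 2) + -v / (u ^ 2 - v ^ 2 * ψ ^ 2) * ψ) =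
          (u ^ 2 - v ^ 2 * ψ ^ 2) / (u ^ 2 - v ^ 2 * ψ ^ 2) := by ring
      rw [e, div_self hM0]
  | mul a b _ _ h1 h2 =>
    obtain ⟨u, hu, v, hv, rfl⟩ := h1
    obtain ⟨u', hu', v', hv', rfl⟩ := h2
    exact ⟨u * u' + v * v' * ψ ^ 2, L.add_mem (L.mul_mem hu hu')
      (L.mul_mem (L.mul_mem hv hv') hβ), u * v' + v * u',
      L.add_mem (L.mul_mem hu hv') (L.mul_mem hv hu'), by ring⟩

theorem t : Pool.Agent.Helper92.TG.DEC := by
  classical
  intro K F _ _ _ _ x ψ z β σ htr hψ h2 hx hσ hz
  have : CharZero F := charZero_of_injective_algebraMap (algebraMap K F).injective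
  obtain ⟨u, hu, v, hv, rfl⟩ := decomp hψ h2 hx hσ z hz
  have hsu := fixL hx u hu
  have hsv := fixL hx v hv
  have hsz : σ (u + v * ψ) = u - v * ψ := by
    rw [map_add, map_mul, hsu, hsv, hσ]
    ring
  have hne : ∀ s : K[X], s ≠ 0 → aeval x s ≠ 0 := by
    intro s hs h
    exact htr ⟨s, hs, h⟩
  refine ⟨?_, ?_⟩
  · intro h
    rw [hsz] at h
    have hv0 : v = 0 := by
      have h3 : (2 : F) * (v * ψ) = 0 := by linear_combination - h
      have h4 := (mul_eq_zero.1 h3).resolve_left two_ne_zero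
      exact (mul_eq_zero.1 h4).resolve_right hψ
    obtain ⟨r, s, hrs⟩ := (IntermediateField.mem_adjoin_simple_iff K u).1 hu
    rw [hv0, zero_mul, add_zero]
    by_cases hs : s = 0
    · refine ⟨0, 1, isCoprime_zero_left.2 isUnit_one, one_ne_zero, ?_⟩
      rw [hrs, hs]
      simp
    · obtain ⟨A, hA⟩ := EuclideanDomain.gcd_dvd_left r s
      obtain ⟨B, hB⟩ := EuclideanDomain.gcd_dvd_right r s
      have hg := EuclideanDomain.gcd_eq_gcd_ab r s
      set g := EuclideanDomain.gcd r s with hgdef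
      have hg0 : g ≠ 0 := by
        intro h0
        apply hs
        rw [hB, h0, zero_mul]
      have hB0 : B ≠ 0 := by
        intro h0
        apply hs
        rw [hB, h0, mul_zero]
      refine ⟨A, B, ⟨EuclideanDomain.gcdA r s, EuclideanDomain.gcdB r s, ?_⟩, hB0, ?_⟩
      · apply mul_left_cancel₀ hg0
        rw [mul_one]
        calc g * (EuclideanDomain.gcdA r s * A + EuclideanDomain.gcdB r s * B)
            = (g * A) * EuclideanDomain.gcdA r s + (g * B) * EuclideanDomain.gcdB r s := by ring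
          _ = r * EuclideanDomain.gcdA r s + s * EuclideanDomain.gcdB r s := by
            rw [← hA, ← hB]
          _ = g := hg.symm
      · have e1 : aeval x r = aeval x g * aeval x A := by
          rw [← map_mul, ← hA]
        have e2 : aeval x s = aeval x g * aeval x B := by
          rw [← map_mul, ← hB]
        rw [hrs, e1, e2]
        have := hne g hg0
        have := hne B hB0
        field_simp
  · intro h
    rw [hsz] at h
    have hu0 : u = 0 := by
      have h3 : (2 : F) * u = 0 := by linear_combination h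
      exact (mul_eq_zero.1 h3).resolve_left two_ne_zero
    obtain ⟨r, s, hrs⟩ := (IntermediateField.mem_adjoin_simple_iff K v).1 hv
    rw [hu0, zero_add]
    by_cases hs : s = 0
    · refine ⟨0, 1, one_ne_zero, ?_⟩
      rw [hrs, hs]
      simp
    · refine ⟨r, s, hs, ?_⟩
      rw [hrs]
      have := hne s hs
      field_simp

end Pool.Agent.Helper17.TG.DEC
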